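import Pool.Agent.Helper3.AK.Goals4

/-!
# Project AK, goal LMA: one block of the martingale (proof of `S_LMA`)
-/

set_option linter.unusedVariables false

namespace Pool.Agent.Helper3.AK

open Equiv

namespace LMA

variable {n : ℕ} {x : Fin 2 → Alt n} {g g' : ℕ → Letter 2} {S : Finset (Fin n)}

/-- the contribution of a vertex with `c` known letters to the potential -/
def phi (S : Finset (Fin n)) (v : Fin n) (c : ℕ) : ℕ := (c - 2) + if v ∈ S ∧ 2 ≤ c then 1 else 0

theorem phi_mono (S : Finset (Fin n)) (v : Fin n) {c d : ℕ} (h : c ≤ d) :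
    phi S v c ≤ phi S v d := by
  unfold phi
  by_cases hv : v ∈ S
  · simp only [hv, true_and]
    split_ifs <;> omega
  · simp only [hv, false_and, if_false]
    omega

theorem phi_add (S : Finset (Fin n)) (v : Fin n) {c d : ℕ} (h : c ≤ d) :
    phi S v d ≤ phi S v c + (d - c) := by
  unfold phi
  by_cases hv : v ∈ S
  · simp only [hv, true_and]
    split_ifs <;> omega
  · simp only [hv, false_and, if_false]
    omega

theorem pot_eq (x : Fin 2 → Alt n) (g : ℕ → Letter 2) (S : Finset (Fin n)) (t : ℕ) :
    pot x g S t = ∑ v, phi S v (Lt x g S t v).card := by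
  unfold pot phi
  rw [Finset.sum_add_distrib, ← Finset.card_filter]
  congr 2
  ext v
  simp

theorem Kn_mono {s t : ℕ} (h : s ≤ t) : Kn x g S s ⊆ Kn x g S t :=
  Finset.biUnion_subset_biUnion_of_subset_left _ (Finset.range_mono h)

theorem Lt_mono {s t : ℕ} (h : s ≤ t) (v : Fin n) : Lt x g S s v ⊆ Lt x g S t v := by
  intro l hl
  unfold Lt at *
  rw [Finset.mem_filter] at *
  exact ⟨hl.1, Kn_mono h hl.2⟩

theorem mem_Lt {t : ℕ} {v : Fin n} {l : Letter 2} :
    l ∈ Lt x g S t v ↔ (v, l) ∈ Kn x g S t := by
  unfold Lt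
  simp

theorem mem_Kn {t : ℕ} {v : Fin n} {l : Letter 2} :
    (v, l) ∈ Kn x g S t ↔ ∃ s < t, ∃ p ∈ S, (pz x g s p = v ∧ g s = l) ∨
      (pz x g (s + 1) p = v ∧ flip (g s) = l) := by
  unfold Kn
  simp only [Finset.mem_biUnion, Finset.mem_range, Finset.mem_union, Finset.mem_image,
    Prod.mk.injEq]
  constructor
  · rintro ⟨s, hs, ⟨p, hp, h⟩ | ⟨p, hp, h⟩⟩
    · exact ⟨s, hs, p, hp, Or.inl h⟩
    · exact ⟨s, hs, p, hp, Or.inr h⟩
  · rintro ⟨s, hs, p, hp, h | h⟩
    · exact ⟨s, hs, Or.inl ⟨p, hp, h⟩⟩
    · exact ⟨s, hs, Or.inr ⟨p, hp, h⟩⟩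

theorem card_Kn (x : Fin 2 → Alt n) (g : ℕ → Letter 2) (S : Finset (Fin n)) (t : ℕ) :
    (Kn x g S t).card = ∑ v, (Lt x g S t v).card := by
  rw [Finset.card_eq_sum_card_fiberwise (f := Prod.fst) (t := Finset.univ)
    (fun _ _ => Finset.mem_coe.2 (Finset.mem_univ _))]
  refine Finset.sum_congr rfl fun v _ => ?_
  rw [← Finset.card_map (⟨fun l : Letter 2 => (v, l), fun a b h => (Prod.mk.inj h).2⟩ :
    Letter 2 ↪ Fin n × Letter 2)]
  congr 1
  ext ⟨u, l⟩
  simp only [Finset.mem_filter, Finset.mem_map, Function.Embedding.coeFn_mk, Prod.mk.injEq,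
    mem_Lt]
  constructor
  · rintro ⟨h, rfl⟩
    exact ⟨l, h, rfl, rfl⟩
  · rintro ⟨l', h, rfl, rfl⟩
    exact ⟨h, rfl⟩

theorem Kn_succ_card (x : Fin 2 → Alt n) (g : ℕ → Letter 2) (S : Finset (Fin n)) (t : ℕ) :
    (Kn x g S (t + 1)).card ≤ (Kn x g S t).card + 2 * S.card := by
  have h : Kn x g S (t + 1) = (S.image (fun p => (pz x g t p, g t)) ∪
      S.image (fun p => (pz x g (t + 1) p, flip (g t)))) ∪ Kn x g S t := by
    unfold Kn
    rw [Finset.range_add_one, Finset.biUnion_insert]
  rw [h]
  refine (Finset.card_union_le _ _).trans ?_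
  have h1 := Finset.card_union_le (S.image (fun p => (pz x g t p, g t)))
    (S.image (fun p => (pz x g (t + 1) p, flip (g t))))
  have h2 : (S.image (fun p => (pz x g t p, g t))).card ≤ S.card := Finset.card_image_le
  have h3 : (S.image (fun p => (pz x g (t + 1) p, flip (g t)))).card ≤ S.card :=
    Finset.card_image_le
  omega

theorem pot_step (x : Fin 2 → Alt n) (g : ℕ → Letter 2) (S : Finset (Fin n)) (t : ℕ) :
    pot x g S t ≤ pot x g S (t + 1) ∧ pot x g S (t + 1) ≤ pot x g S t + 2 * S.card := by
  have hle : ∀ v, (Lt x g S t v).card ≤ (Lt x g S (t + 1) v).card := fun v =>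
    Finset.card_le_card (Lt_mono (Nat.le_succ t) v)
  constructor
  · rw [pot_eq, pot_eq]
    exact Finset.sum_le_sum fun v _ => phi_mono S v (hle v)
  · rw [pot_eq, pot_eq]
    have h1 : ∑ v, phi S v (Lt x g S (t + 1) v).card ≤ ∑ v, (phi S v (Lt x g S t v).card +
        ((Lt x g S (t + 1) v).card - (Lt x g S t v).card)) :=
      Finset.sum_le_sum fun v _ => phi_add S v (hle v)
    refine h1.trans ?_
    rw [Finset.sum_add_distrib]
    refine Nat.add_le_add_left ?_ _
    have h2 := Kn_succ_card x g S t
    rw [card_Kn, card_Kn] at h2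
    have h3 : ∑ v, ((Lt x g S (t + 1) v).card - (Lt x g S t v).card) +
        ∑ v, (Lt x g S t v).card = ∑ v, (Lt x g S (t + 1) v).card := by
      rw [← Finset.sum_add_distrib]
      exact Finset.sum_congr rfl fun v _ => Nat.sub_add_cancel (hle v)
    omega

/-- the known darts are closed under reversal -/
theorem Kn_closed {t : ℕ} {v : Fin n} {l : Letter 2} (h : (v, l) ∈ Kn x g S t) :
    (lett x l v, flip l) ∈ Kn x g S t := by
  rw [mem_Kn] at h ⊢
  obtain ⟨s, hs, p, hp, ⟨h1, h2⟩ | ⟨h1, h2⟩⟩ := h
  · refine ⟨s, hs, p, hp, Or.inr ⟨?_, by rw [h2]⟩⟩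
    simp only [pz, Perm.mul_apply]
    rw [h1, h2]
  · refine ⟨s, hs, p, hp, Or.inl ⟨?_, by rw [← h2, flip_flip]⟩⟩
    simp only [pz, Perm.mul_apply] at h1
    rw [← h1, ← h2, lett_flip]
    simp

/-- positions along a word -/
theorem pz_append (x : Fin 2 → Alt n) (g : ℕ → Letter 2) (s : ℕ) (γ : List (Letter 2))
    (h : ∀ i (hi : i < γ.length), g (s + i) = γ[i]) :
    pz x g (s + γ.length) = wl x γ * pz x g s := by
  induction γ generalizing s with
  | nil => simp [wl]
  | cons l γ ih =>
    have h0 : g s = l := h 0 (Nat.zero_lt_succ _)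
    have h1 : pz x g (s + (l :: γ).length) = pz x g ((s + 1) + γ.length) := by
      congr 1
      simp only [List.length_cons]
      omega
    rw [h1, ih (s + 1) (fun i hi => ?_)]
    · simp only [pz, wl, h0, mul_assoc]
    · have := h (i + 1) (by simpa using hi)
      rw [List.getElem_cons_succ] at this
      rw [← this]
      congr 1
      omega

theorem wl_append (x : Fin 2 → Alt n) (γ δ : List (Letter 2)) :
    wl x (γ ++ δ) = wl x δ * wl x γ := by
  induction γ with
  | nil => simp [wl]
  | cons l γ ih => simp only [List.cons_append, wl, ih, mul_assoc]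

/-- a vertex off `S` visited at a time `1 ≤ s' < s` has two known letters -/
theorem two_le {s s' : ℕ} (hr : Red g s) (hs : s' < s) {v : Fin n} (hv : v ∉ S) {q : Fin n}
    (hq : q ∈ S) (h : pz x g s' q = v) : 2 ≤ (Lt x g S s v).card := by
  rcases s' with _ | s'
  · exact absurd (by rw [← h]; simpa [pz] using hq) hv
  · have h1 : g (s' + 1) ∈ Lt x g S s v := by
      rw [mem_Lt, mem_Kn]
      exact ⟨s' + 1, hs, q, hq, Or.inl ⟨h, rfl⟩⟩
    have h2 : flip (g s') ∈ Lt x g S s v := by
      rw [mem_Lt, mem_Kn]
      exact ⟨s', by omega, q, hq, Or.inr ⟨h, rfl⟩⟩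
    have h3 : g (s' + 1) ≠ flip (g s') := hr s' hs
    have h4 : ({g (s' + 1), flip (g s')} : Finset (Letter 2)) ⊆ Lt x g S s v := by
      intro l hl
      rw [Finset.mem_insert, Finset.mem_singleton] at hl
      rcases hl with rfl | rfl
      · exact h1
      · exact h2
    have h5 := Finset.card_le_card h4
    rwa [Finset.card_pair h3] at h5

/-- lower bound for the probability that the block starts with an allowed word -/
theorem er_prefix (t : ℕ) (w β : List (Letter 2)) (hw : w ≠ []) (hr : RedL (w ++ β))
    (hβ : β.length ≤ t) :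
    ((3 : ℝ) ^ t)⁻¹ ≤ ER t w (fun v => if w ++ β <+: v then 1 else 0) := by
  induction t generalizing w β with
  | zero =>
    have hb : β = [] := List.length_eq_zero_iff.1 (by omega)
    subst hb
    simp [er_zero]
  | succ t ih =>
    have hrw : RedL w := by
      unfold RedL at *
      exact (List.isChain_append.1 hr).1
    cases β with
    | nil =>
      have h1 : ER (t + 1) w (fun _ => (1 : ℝ)) ≤
          ER (t + 1) w (fun v => if w ++ [] <+: v then 1 else 0) := by
        refine er_mono _ _ hrw _ _ fun v hv _ _ => ?_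
        rw [List.append_nil, if_pos hv]
      rw [er_const] at h1
      refine le_trans ?_ h1
      exact inv_le_one_of_one_le₀ (one_le_pow₀ (by norm_num))
    | cons b β =>
      have hb : b ∈ nxt w := by
        rw [mem_nxt]
        intro a ha
        have := (List.isChain_append.1 hr).2.2 a ha b (by simp)
        exact this
      have h2 : w ++ b :: β = (w ++ [b]) ++ β := by simp
      have h3 := ih (w ++ [b]) β (by simp) (by rw [← h2]; exact hr)
        (by simp only [List.length_cons] at hβ; omega)
      rw [er_succ, nxt_card w hw, h2]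
      have h4 : ER t (w ++ [b]) (fun v => if (w ++ [b]) ++ β <+: v then (1 : ℝ) else 0) ≤
          ∑ l ∈ nxt w, ER t (w ++ [l]) (fun v => if (w ++ [b]) ++ β <+: v then (1 : ℝ) else 0) := by
        refine Finset.single_le_sum (f := fun l => ER t (w ++ [l])
          (fun v => if (w ++ [b]) ++ β <+: v then (1 : ℝ) else 0)) (fun l _ => ?_) hb
        refine er_nonneg _ _ _ fun v => ?_
        split_ifs <;> norm_num
      have h5 := h3.trans h4
      rw [pow_succ, mul_inv, mul_comm]
      push_cast
      exact mul_le_mul_of_nonneg_left h5 (by norm_num)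

/-- the darts used along the word `γ ++ [h]` -/
theorem dart_h {w γ v' : List (Letter 2)} {h : Letter 2} (hp : w ++ (γ ++ [h]) <+: v')
    {p : Fin n} (hpS : p ∈ S) {T : ℕ} (hT : w.length + γ.length + 1 ≤ T) :
    h ∈ Lt x (gl v') S T (wl x γ (pz x (gl w) w.length p)) := by
  obtain ⟨u, rfl⟩ := hp
  have e1 : pz x (gl w) w.length = pz x (gl (w ++ (γ ++ [h]) ++ u)) w.length := by
    refine pz_congr fun s hs => ?_
    refine (gl_prefix ?_ hs).symm
    rw [List.append_assoc]
    exact List.prefix_append _ _
  have e2 : pz x (gl (w ++ (γ ++ [h]) ++ u)) (w.length + γ.length) =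
      wl x γ * pz x (gl (w ++ (γ ++ [h]) ++ u)) w.length := by
    refine pz_append x _ _ γ fun i hi => ?_
    unfold gl
    rw [List.getD_eq_getElem _ _ (by simp; omega)]
    simp only [List.append_assoc]
    rw [List.getElem_append_right (by omega)]
    rw [List.getElem_append_left (by omega)]
    congr 1
    omega
  have e3 : gl (w ++ (γ ++ [h]) ++ u) (w.length + γ.length) = h := by
    unfold gl
    rw [List.getD_eq_getElem _ _ (by simp)]
    simp only [List.append_assoc]
    rw [List.getElem_append_right (by omega)]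
    simp
  rw [mem_Lt, mem_Kn]
  refine ⟨w.length + γ.length, by omega, p, hpS, Or.inl ⟨?_, e3⟩⟩
  rw [e2, e1, Perm.mul_apply]

theorem Lt_gl {w v' : List (Letter 2)} (hp : w <+: v') {T : ℕ} (hT : w.length ≤ T) (v : Fin n) :
    Lt x (gl w) S w.length v ⊆ Lt x (gl v') S T v := by
  rw [Lt_congr (x := x) (S := S) (g := gl w) (g' := gl v') (t := w.length)
    (fun s hs => (gl_prefix hp hs).symm) v]
  exact Lt_mono hT v

/-- the main step: a block prefix for a shallow rider -/
theorem exists_prefix (κ : ℕ) (w : List (Letter 2)) (hw : w ≠ []) (hr : RedL w) (p : Fin n)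
    (hp : p ∈ S) (hrid : rider x (gl w) S w.length p) (hsh : shal κ x (gl w) S w.length p) :
    ∃ (γ : List (Letter 2)) (h : Letter 2), γ.length ≤ κ ∧ RedL (w ++ (γ ++ [h])) ∧
      ∀ v' : List (Letter 2), w ++ (γ ++ [h]) <+: v' →
        phi S (wl x γ (pz x (gl w) w.length p))
          (Lt x (gl w) S w.length (wl x γ (pz x (gl w) w.length p))).card + 1 ≤
        phi S (wl x γ (pz x (gl w) w.length p))
          (Lt x (gl v') S (w.length + (κ + 1)) (wl x γ (pz x (gl w) w.length p))).card := by
  classical
  have hs1 : 1 ≤ w.length := List.length_pos_iff.2 hw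
  have hred : Red (gl w) w.length := red_gl hr
  have hex : ∃ k, ∃ γ : List (Letter 2), γ.length = k ∧ Ok (gl w (w.length - 1)) γ ∧
      wl x γ (pz x (gl w) w.length p) ∉ full x (gl w) S w.length := by
    obtain ⟨γ, h1, h2, h3⟩ := hsh
    exact ⟨γ.length, γ, rfl, h2, h3⟩
  obtain ⟨γ, hγ1, hγ2, hγ3⟩ := Nat.find_spec hex
  have hmin : ∀ δ : List (Letter 2), δ.length < γ.length → Ok (gl w (w.length - 1)) δ →
      wl x δ (pz x (gl w) w.length p) ∈ full x (gl w) S w.length := by
    intro δ h1 h2
    by_contra h3
    rw [hγ1] at h1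
    exact Nat.find_min hex h1 ⟨δ, rfl, h2, h3⟩
  have hγκ : γ.length ≤ κ := by
    obtain ⟨δ, h1, h2, h3⟩ := hsh
    by_contra hc
    exact h3 (hmin δ (by omega) h2)
  have hlast : w.getLast? = some (gl w (w.length - 1)) := by
    rw [List.getLast?_eq_getElem?]
    unfold gl
    rw [List.getD_eq_getElem _ _ (by omega), List.getElem?_eq_getElem (by omega)]
  set a := gl w (w.length - 1) with ha
  set v := wl x γ (pz x (gl w) w.length p) with hv
  have hcat : γ = [] ∨ ∃ (δ : List (Letter 2)) (l : Letter 2), γ = δ ++ [l] := by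
    rcases List.eq_nil_or_concat γ with h0 | ⟨δ, l, h0⟩
    · exact Or.inl h0
    · exact Or.inr ⟨δ, l, by simpa using h0⟩
  -- the backward letter at v
  obtain ⟨b, hb1, hb2⟩ : ∃ b, b ∈ Lt x (gl w) S w.length v ∧ ∀ c ∈ (a :: γ).getLast?, b = flip c := by
    rcases hcat with h0 | ⟨δ, l, h0⟩
    · refine ⟨flip a, ?_, ?_⟩
      · rw [mem_Lt, mem_Kn]
        refine ⟨w.length - 1, by omega, p, hp, Or.inr ⟨?_, rfl⟩⟩
        rw [hv, h0, Nat.sub_add_cancel hs1]
        rfl
      · rw [h0]
        intro c hc
        simp only [List.getLast?_singleton, Option.mem_def, Option.some.injEq] at hc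
        rw [hc]
    · refine ⟨flip l, ?_, ?_⟩
      · have hδ : Ok a δ := by
          unfold Ok at *
          rw [h0, ← List.cons_append] at hγ2
          exact (List.isChain_append.1 hγ2).1
        have h1 := hmin δ (by rw [h0]; simp) hδ
        unfold full at h1
        rw [Finset.mem_filter] at h1
        have h2 : l ∈ Lt x (gl w) S w.length (wl x δ (pz x (gl w) w.length p)) := by
          rw [h1.2]
          exact Finset.mem_univ _
        rw [mem_Lt] at h2 ⊢
        have h3 := Kn_closed h2
        rw [hv, h0, wl_append]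
        simpa [wl, Perm.mul_apply] using h3
      · rw [h0]
        intro c hc
        rw [← List.cons_append, List.getLast?_append] at hc
        simp at hc
        rw [hc]
  -- every letter different from b is allowed
  have hallow : ∀ h, h ≠ b → RedL (w ++ (γ ++ [h])) := by
    intro h hh
    unfold RedL
    unfold RedL at hr
    have h1 : (w ++ γ).IsChain fun a b => b ≠ flip a := by
      rw [List.isChain_append]
      unfold Ok at hγ2
      refine ⟨hr, (List.isChain_cons.1 hγ2).2, fun c hc d hd => ?_⟩
      rw [hlast] at hc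
      simp only [Option.mem_def, Option.some.injEq] at hc
      rw [← hc]
      exact (List.isChain_cons.1 hγ2).1 d hd
    rw [← List.append_assoc, List.isChain_append]
    refine ⟨h1, by simp, fun c hc d hd => ?_⟩
    simp only [List.head?_cons, Option.mem_def, Option.some.injEq] at hd
    rw [← hd]
    have h2 : c ∈ (a :: γ).getLast? := by
      rcases hcat with h0 | ⟨δ, l, h0⟩
      · rw [h0] at hc ⊢
        rw [List.append_nil, hlast] at hc
        simpa using hc
      · rw [h0, ← List.append_assoc, List.getLast?_append] at hc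
        rw [h0, ← List.cons_append, List.getLast?_append]
        simpa using hc
    rw [← hb2 c h2]
    exact hh
  have hmono : ∀ (h : Letter 2) (v' : List (Letter 2)), w ++ (γ ++ [h]) <+: v' →
      Lt x (gl w) S w.length v ⊆ Lt x (gl v') S (w.length + (κ + 1)) v := fun h v' hv' =>
    Lt_gl ((List.prefix_append _ _).trans hv') (by omega) v
  have hdart : ∀ (h : Letter 2) (v' : List (Letter 2)), w ++ (γ ++ [h]) <+: v' →
      h ∈ Lt x (gl v') S (w.length + (κ + 1)) v := fun h v' hv' =>
    dart_h hv' hp (by omega)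
  by_cases h2 : 2 ≤ (Lt x (gl w) S w.length v).card
  · -- case (a)
    have h3 : ∃ h, h ∉ Lt x (gl w) S w.length v := by
      by_contra hc
      push Not at hc
      apply hγ3
      unfold full
      rw [Finset.mem_filter]
      exact ⟨Finset.mem_univ _, Finset.eq_univ_iff_forall.2 hc⟩
    obtain ⟨h, hh⟩ := h3
    refine ⟨γ, h, hγκ, hallow h (fun e => hh (e ▸ hb1)), fun v' hv' => ?_⟩
    rw [← hv]
    have h4 : insert h (Lt x (gl w) S w.length v) ⊆ Lt x (gl v') S (w.length + (κ + 1)) v :=
      Finset.insert_subset (hdart h v' hv') (hmono h v' hv')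
    have h5 := Finset.card_le_card h4
    rw [Finset.card_insert_of_notMem hh] at h5
    refine le_trans ?_ (phi_mono S v h5)
    unfold phi
    by_cases hvS : v ∈ S
    · simp only [hvS, true_and]
      split_ifs <;> omega
    · simp only [hvS, false_and, if_false]
      omega
  · by_cases hvS : v ∈ S
    · -- case (b)
      obtain ⟨h, hh⟩ : ∃ h : Letter 2, h ≠ b := ⟨flip b, flip_ne b⟩
      refine ⟨γ, h, hγκ, hallow h hh, fun v' hv' => ?_⟩
      rw [← hv]
      have h4 : ({h, b} : Finset (Letter 2)) ⊆ Lt x (gl v') S (w.length + (κ + 1)) v := by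
        intro l hl
        rw [Finset.mem_insert, Finset.mem_singleton] at hl
        rcases hl with rfl | rfl
        · exact hdart _ v' hv'
        · exact hmono h v' hv' hb1
      have h5 := Finset.card_le_card h4
      rw [Finset.card_pair hh] at h5
      refine le_trans ?_ (phi_mono S v h5)
      unfold phi
      simp only [hvS, true_and]
      split_ifs <;> omega
    · -- case (c)
      have hnot : ∀ s' < w.length, ∀ q ∈ S, pz x (gl w) s' q ≠ v := fun s' hs' q hq e =>
        h2 (two_le hred hs' hvS hq e)
      obtain ⟨q, hq, hqv, hqb⟩ : ∃ q ∈ S, pz x (gl w) w.length q = v ∧ b = flip a := by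
        rw [mem_Lt, mem_Kn] at hb1
        obtain ⟨s', hs', q, hq, ⟨e1, e2⟩ | ⟨e1, e2⟩⟩ := hb1
        · exact absurd e1 (hnot s' hs' q hq)
        · by_cases hs2 : s' + 1 < w.length
          · exact absurd e1 (hnot _ hs2 q hq)
          · have hs3 : s' + 1 = w.length := by omega
            refine ⟨q, hq, by rw [← hs3]; exact e1, ?_⟩
            rw [← e2, ha, ← hs3, Nat.add_sub_cancel]
      have hγ0 : γ ≠ [] := by
        intro h0
        obtain ⟨s', hs', q', hq', e⟩ := hrid
        refine hnot s' hs' q' hq' ?_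
        rw [e, hv, h0]
        rfl
      obtain ⟨c, γ', hc⟩ := List.exists_cons_of_ne_nil hγ0
      have hcb : c ≠ b := by
        rw [hqb]
        unfold Ok at hγ2
        rw [hc] at hγ2
        exact (List.isChain_cons.1 hγ2).1 c (by simp)
      obtain ⟨h, hh⟩ : ∃ h : Letter 2, h ∉ ({c, b} : Finset (Letter 2)) := by
        by_contra hcon
        push Not at hcon
        have h1 : (Finset.univ : Finset (Letter 2)) ⊆ {c, b} := fun l _ => hcon l
        have h3 := (Finset.card_le_card h1).trans Finset.card_le_two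
        have h4 : (Finset.univ : Finset (Letter 2)).card = 4 := by decide
        omega
      have hhb : h ≠ b := fun e => hh (by rw [e]; simp)
      refine ⟨γ, h, hγκ, hallow h hhb, fun v' hv' => ?_⟩
      rw [← hv]
      have hcd : c ∈ Lt x (gl v') S (w.length + (κ + 1)) v := by
        have h6 : w ++ ([] ++ [c]) <+: v' := by
          refine List.IsPrefix.trans ?_ hv'
          rw [hc]
          simp
        have h7 := dart_h (x := x) (S := S) (T := w.length + (κ + 1)) h6 hq (by simp)
        have h8 : wl x [] (pz x (gl w) w.length q) = v := hqv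
        rwa [h8] at h7
      have h4 : insert h ({c, b} : Finset (Letter 2)) ⊆
          Lt x (gl v') S (w.length + (κ + 1)) v := by
        intro l hl
        rw [Finset.mem_insert, Finset.mem_insert, Finset.mem_singleton] at hl
        rcases hl with rfl | rfl | rfl
        · exact hdart _ v' hv'
        · exact hcd
        · exact hmono h v' hv' hb1
      have h5 := Finset.card_le_card h4
      rw [Finset.card_insert_of_notMem hh, Finset.card_pair hcb] at h5
      refine le_trans ?_ (phi_mono S v h5)
      unfold phi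
      simp only [hvS, false_and, if_false]
      omega

end LMA

open LMA in
theorem lma : S_LMA := by
  classical
  intro n x S
  refine ⟨fun g t => pot_step x g S t, fun κ w hw hr => ?_⟩
  set SR : Finset (Fin n) := S.filter fun p => rider x (gl w) S w.length p ∧
    shal κ x (gl w) S w.length p with hSR
  have hsh : sh κ x (gl w) S w.length = SR.card := by
    unfold sh
    rw [hSR]
  have hch : ∀ p, ∃ (γ : List (Letter 2)) (h : Letter 2), p ∈ SR → (γ.length ≤ κ ∧
      RedL (w ++ (γ ++ [h])) ∧ ∀ v' : List (Letter 2), w ++ (γ ++ [h]) <+: v' →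
        phi S (wl x γ (pz x (gl w) w.length p))
          (Lt x (gl w) S w.length (wl x γ (pz x (gl w) w.length p))).card + 1 ≤
        phi S (wl x γ (pz x (gl w) w.length p))
          (Lt x (gl v') S (w.length + (κ + 1)) (wl x γ (pz x (gl w) w.length p))).card) := by
    intro p
    by_cases hp : p ∈ SR
    · have hp' := hp
      rw [hSR, Finset.mem_filter] at hp'
      obtain ⟨γ, h, H⟩ := exists_prefix κ w hw hr p hp'.1 hp'.2.1 hp'.2.2
      exact ⟨γ, h, fun _ => H⟩
    · exact ⟨[], (0, false), fun h => absurd h hp⟩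
  choose γ h H using hch
  -- the number of riders whose prefix is taken
  have hcount : ∀ v' : List (Letter 2), w <+: v' → v'.length = w.length + (κ + 1) →
      (SR.filter fun p => w ++ (γ p ++ [h p]) <+: v').card ≤
        (κ + 1) * (pot x (gl v') S (w.length + (κ + 1)) - pot x (gl w) S w.length) := by
    intro v' hv' hlen
    rw [Finset.card_eq_sum_card_fiberwise (f := fun p => (γ p).length)
      (t := Finset.range (κ + 1))]
    · refine (Finset.sum_le_card_nsmul _ _
        (pot x (gl v') S (w.length + (κ + 1)) - pot x (gl w) S w.length)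
        fun j _ => ?_).trans_eq (by rw [Finset.card_range, smul_eq_mul])
      set A := (SR.filter fun p => w ++ (γ p ++ [h p]) <+: v').filter
        fun p => (γ p).length = j with hA
      have hinj : Set.InjOn (fun p => wl x (γ p) (pz x (gl w) w.length p)) (A : Set (Fin n)) := by
        intro p hp q hq hpq
        rw [Finset.mem_coe, hA, Finset.mem_filter, Finset.mem_filter] at hp hq
        have e1 : w ++ (γ p ++ [h p]) = w ++ (γ q ++ [h q]) := by
          refine (List.prefix_of_prefix_length_le hp.1.2 hq.1.2 ?_).eq_of_length ?_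
          · simp [hp.2, hq.2]
          · simp [hp.2, hq.2]
        have e2 : γ p = γ q := by
          have := List.append_cancel_left e1
          exact (List.append_inj' this rfl).1
        simp only [e2] at hpq
        exact (pz x (gl w) w.length).injective ((wl x (γ q)).injective hpq)
      rw [← Finset.card_image_of_injOn hinj]
      have h1 : pot x (gl w) S w.length + (A.image fun p =>
          wl x (γ p) (pz x (gl w) w.length p)).card ≤ pot x (gl v') S (w.length + (κ + 1)) := by
        rw [pot_eq, pot_eq]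
        have h2 : (A.image fun p => wl x (γ p) (pz x (gl w) w.length p)).card =
            ∑ v : Fin n, if v ∈ A.image fun p => wl x (γ p) (pz x (gl w) w.length p)
              then 1 else 0 := by
          rw [← Finset.card_filter]
          congr 1
          ext v
          simp
        rw [h2, ← Finset.sum_add_distrib]
        refine Finset.sum_le_sum fun v _ => ?_
        split_ifs with hvA
        · rw [Finset.mem_image] at hvA
          obtain ⟨p, hp, rfl⟩ := hvA
          rw [hA, Finset.mem_filter, Finset.mem_filter] at hp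
          exact (H p hp.1.1).2.2 v' hp.1.2
        · rw [add_zero]
          exact phi_mono S v (Finset.card_le_card (Lt_gl hv' (by omega) v))
      omega
    · intro p hp
      rw [Finset.mem_coe, Finset.mem_filter] at hp
      rw [Finset.mem_coe, Finset.mem_range]
      have := (H p hp.1).1
      simp only
      omega
  have hpot : ∀ v' : List (Letter 2), w <+: v' →
      pot x (gl w) S w.length ≤ pot x (gl v') S (w.length + (κ + 1)) := by
    intro v' hv'
    rw [pot_eq, pot_eq]
    exact Finset.sum_le_sum fun v _ => phi_mono S v (Finset.card_le_card (Lt_gl hv' (by omega) v))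
  -- expectation
  have h1 : ER (κ + 1) w (fun v' => ((κ : ℝ) + 1)⁻¹ *
      ∑ p ∈ SR, if w ++ (γ p ++ [h p]) <+: v' then (1 : ℝ) else 0) ≤
      ER (κ + 1) w (fun v => (pot x (gl v) S (w.length + (κ + 1)) : ℝ) -
        pot x (gl w) S w.length) := by
    refine er_mono _ _ hr _ _ fun v' hv' hlen _ => ?_
    have h2 := hcount v' hv' hlen
    have h3 : ((SR.filter fun p => w ++ (γ p ++ [h p]) <+: v').card : ℝ) ≤
        ((κ : ℝ) + 1) * ((pot x (gl v') S (w.length + (κ + 1)) : ℝ) -
          pot x (gl w) S w.length) := by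
      have h4 : ((SR.filter fun p => w ++ (γ p ++ [h p]) <+: v').card : ℝ) ≤
        (((κ + 1) * (pot x (gl v') S (w.length + (κ + 1)) - pot x (gl w) S w.length) : ℕ) : ℝ) :=
        Nat.cast_le.2 h2
      rw [Nat.cast_mul, Nat.cast_sub (hpot v' hv')] at h4
      push_cast at h4
      exact h4
    rw [Finset.card_filter, Nat.cast_sum] at h3
    push_cast at h3
    rw [inv_mul_le_iff₀ (by positivity)]
    exact h3
  refine le_trans ?_ h1
  rw [er_mul, er_sum, hsh]
  have h5 : (SR.card : ℝ) * ((3 : ℝ) ^ (κ + 1))⁻¹ ≤ ∑ p ∈ SR, ER (κ + 1) w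
      (fun v' => if w ++ (γ p ++ [h p]) <+: v' then (1 : ℝ) else 0) := by
    rw [← nsmul_eq_mul]
    refine Finset.card_nsmul_le_sum _ _ _ fun p hp => ?_
    exact er_prefix (κ + 1) w (γ p ++ [h p]) hw (H p hp).2.1 (by
      have := (H p hp).1
      simp only [List.length_append, List.length_singleton]
      omega)
  calc (SR.card : ℝ) / (((κ : ℝ) + 1) * 3 ^ (κ + 1))
      = ((κ : ℝ) + 1)⁻¹ * ((SR.card : ℝ) * ((3 : ℝ) ^ (κ + 1))⁻¹) := by
        field_simp
    _ ≤ _ := mul_le_mul_of_nonneg_left h5 (by positivity)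

end Pool.Agent.Helper3.AK
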