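import Pool.Agent.Helper3.AK.Goals3

/-!
# Project AK: the step with a fresh generator
-/

set_option linter.unusedVariables false

namespace Pool.Agent.Helper3.AK

open Equiv

namespace Step33

variable {n r k : ℕ}

/-! ### Monotonicity -/

theorem gap_mono {z : Fin k → Alt n} {ε₁ ε₂ : ℝ} (h : ε₂ ≤ ε₁) (hg : TupleGap z r ε₁) :
    TupleGap z r ε₂ := by
  intro φ hφ
  refine (hg φ hφ).trans ?_
  refine mul_le_mul_of_nonneg_right (by linarith) ?_
  exact Finset.sum_nonneg fun a _ => sq_nonneg _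

/-- the good families -/
abbrev good (k n : ℕ) (α ε : ℝ) : Type :=
  {x : Fin k → Alt n // ∀ r : ℕ, (r : ℝ) ≤ (n : ℝ) ^ α → TupleGap x r ε}

theorem ratio_le_one (k n : ℕ) (α ε : ℝ) :
    (Nat.card (good k n α ε) : ℝ) / Nat.card (Fin k → Alt n) ≤ 1 := by
  refine div_le_one_of_le₀ ?_ (Nat.cast_nonneg _)
  exact_mod_cast Nat.card_le_card_of_injective _ Subtype.val_injective

theorem whp_mono {α₁ α₂ ε₁ ε₂ : ℝ} (hα : α₂ ≤ α₁) (hε : ε₂ ≤ ε₁) (h : Whp k α₁ ε₁) :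
    Whp k α₂ ε₂ := by
  refine tendsto_of_tendsto_of_tendsto_of_le_of_le' h tendsto_const_nhds ?_ ?_
  · filter_upwards [Filter.eventually_ge_atTop 1] with n hn
    refine div_le_div_of_nonneg_right ?_ (Nat.cast_nonneg _)
    have hinj : Function.Injective (fun x : good k n α₁ ε₁ =>
        (⟨x.1, fun r hr => gap_mono hε (x.2 r (hr.trans
          (Real.rpow_le_rpow_of_exponent_le (by exact_mod_cast hn) hα)))⟩ : good k n α₂ ε₂)) :=
      by
        intro x y hxy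
        have h1 := congrArg Subtype.val hxy
        exact Subtype.ext h1
    exact_mod_cast Nat.card_le_card_of_injective _ hinj
  · exact Filter.Eventually.of_forall fun n => ratio_le_one k n α₂ ε₂

/-! ### Functions with vanishing marginals -/

theorem sum_zero {f : Fn n r} (hf : Zm f) (hr : 1 ≤ r) : ∑ a, f a = 0 := by
  classical
  let j : Fin r := ⟨0, hr⟩
  let φ : (Fin r ↪ Fin n) → ({i : Fin r // i ≠ j} → Fin n) := fun a i => a i.1
  rw [← Finset.sum_fiberwise_of_maps_to (s := Finset.univ) (t := Finset.univ) (g := φ)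
    (fun _ _ => Finset.mem_univ _)]
  refine Finset.sum_eq_zero fun c _ => ?_
  by_cases h : ∃ a, φ a = c
  · obtain ⟨a, rfl⟩ := h
    rw [← hf j a]
    refine Finset.sum_congr ?_ fun _ _ => rfl
    ext b
    simp only [Finset.mem_filter, Finset.mem_univ, true_and]
    constructor
    · intro hb i hi
      exact congrFun hb ⟨i, hi⟩
    · intro hb
      funext i
      exact hb i.1 i.2
  · rw [Finset.filter_false_of_mem, Finset.sum_empty]
    intro a _ ha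
    exact h ⟨a, ha⟩

theorem sum_act (g : Perm (Fin n)) (F : (Fin r ↪ Fin n) → ℝ) :
    ∑ a : Fin r ↪ Fin n, F (a.trans g.toEmbedding) = ∑ a, F a := by
  refine Fintype.sum_equiv
    ⟨fun a => a.trans g.toEmbedding, fun a => a.trans g.symm.toEmbedding, fun a => ?_, fun a => ?_⟩
    _ _ fun _ => rfl
  · ext i
    simp
  · ext i
    simp

theorem ip_act_le (g : Perm (Fin n)) (f : Fn n r) : ip f (Act g f) ≤ ∑ a, f a ^ 2 := by
  have h := sum_act g (fun a => f a ^ 2)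
  have h1 : ∀ a : Fin r ↪ Fin n, f a * (Act g f) a ≤
      (1 / 2) * f a ^ 2 + (1 / 2) * f (a.trans g.toEmbedding) ^ 2 := by
    intro a
    rw [Act_apply]
    nlinarith [sq_nonneg (f a - f (a.trans g.toEmbedding))]
  refine (Finset.sum_le_sum fun a _ => h1 a).trans ?_
  rw [Finset.sum_add_distrib, ← Finset.mul_sum, ← Finset.mul_sum, h]
  linarith

theorem ip_add (f g h : Fn n r) : ip f (g + h) = ip f g + ip f h := by
  unfold ip
  rw [← Finset.sum_add_distrib]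
  exact Finset.sum_congr rfl fun a _ => mul_add _ _ _

theorem ip_smul (f g : Fn n r) (c : ℝ) : ip f (c • g) = c * ip f g := by
  unfold ip
  rw [Finset.mul_sum]
  refine Finset.sum_congr rfl fun a _ => ?_
  rw [Pi.smul_apply, smul_eq_mul]
  ring

theorem ip_self (f : Fn n r) : ip f f = ∑ a, f a ^ 2 :=
  Finset.sum_congr rfl fun a _ => (sq _).symm

theorem wk_snoc (hk : 1 ≤ k) (z : Fin k → Alt n) (y : Alt n) (f : Fn n r) :
    ((k : ℝ) + 1) • Wk (Fin.snoc (α := fun _ => Alt n) z y) f =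
      (k : ℝ) • Wk z f + (1 / 2 : ℝ) • (Act (y : Perm (Fin n)) f +
        Act ((y : Perm (Fin n))⁻¹) f) := by
  have hk0 : (k : ℝ) ≠ 0 := by positivity
  have hk1 : (k : ℝ) + 1 ≠ 0 := by positivity
  ext a
  simp only [Wk, LinearMap.smul_apply, LinearMap.sum_apply, LinearMap.add_apply, Pi.smul_apply,
    Pi.add_apply, Finset.sum_apply, smul_eq_mul, Fin.sum_univ_castSucc, Fin.snoc_castSucc,
    Fin.snoc_last]
  push_cast
  field_simp

theorem pow_pos_of_ne_zero33 {x : ℝ} (hx : x ≠ 0) : 0 < x ^ 2 := by positivity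

theorem low_level (hk : 1 ≤ k) (hr : 1 ≤ r) {z : Fin k → Alt n} {ε : ℝ} (hz : TupleGap z r ε)
    (y : Alt n) {f : Fn n r} {μ : ℝ} (hf : f ≠ 0) (hZ : Zm f)
    (h : Wk (Fin.snoc (α := fun _ => Alt n) z y) f = μ • f) :
    μ ≤ 1 - ε * k / (k + 1) := by
  have hk1 : (0 : ℝ) < (k : ℝ) + 1 := by positivity
  have hS : 0 < ∑ a, f a ^ 2 := by
    obtain ⟨a, ha⟩ := Function.ne_iff.1 hf
    refine Finset.sum_pos' (fun a _ => sq_nonneg _) ⟨a, Finset.mem_univ _, ?_⟩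
    exact pow_pos_of_ne_zero33 ha
  have h1 := congrArg (ip f) (wk_snoc hk z y f)
  rw [h, ip_smul, ip_smul, ip_self, ip_add, ip_smul, ip_smul, ip_add, Wk_eq] at h1
  have h2 : ip f (tupleWalk z r f) ≤ (1 - ε) * ∑ a, f a ^ 2 := hz f (sum_zero hZ hr)
  have h3 := ip_act_le (y : Perm (Fin n)) f
  have h4 := ip_act_le ((y : Perm (Fin n))⁻¹) f
  have hk0 : (0 : ℝ) ≤ k := Nat.cast_nonneg k
  have h5 : ((k : ℝ) + 1) * μ * ∑ a, f a ^ 2 ≤ (k * (1 - ε) + 1) * ∑ a, f a ^ 2 := by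
    have h6 := mul_le_mul_of_nonneg_left h2 hk0
    nlinarith
  have h7 : ((k : ℝ) + 1) * μ ≤ k * (1 - ε) + 1 := le_of_mul_le_mul_right h5 hS
  have h8 : 1 - ε * k / (k + 1) = (k * (1 - ε) + 1) / (k + 1) := by
    field_simp
    ring
  rw [h8, le_div_iff₀ hk1]
  linarith

/-! ### Counting -/

/-- `y` is bad for `z` -/
def Bad (z : Fin k → Alt n) (α α' a : ℝ) (y : Alt n) : Prop :=
  ∃ s : ℕ, ⌊(n : ℝ) ^ α⌋₊ < s ∧ (s : ℝ) ≤ (n : ℝ) ^ α' ∧
    BadLev (Fin.snoc (α := fun _ => Alt n) z y) s a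

theorem card_bad (z : Fin k → Alt n) (α α' a : ℝ) (hn : 1 ≤ n)
    (h5 : ∀ s : ℕ, ⌊(n : ℝ) ^ α⌋₊ < s → (s : ℝ) ≤ (n : ℝ) ^ α' → s ≤ n)
    (hb : ∀ s : ℕ, ⌊(n : ℝ) ^ α⌋₊ < s → (s : ℝ) ≤ (n : ℝ) ^ α' →
      (Nat.card {y : Alt n // BadLev (Fin.snoc (α := fun _ => Alt n) z y) s a} : ℝ) ≤
        Nat.card (Alt n) * ((n : ℝ) ^ 2)⁻¹) :
    (Nat.card {y : Alt n // Bad z α α' a y} : ℝ) ≤ Nat.card (Alt n) / n := by
  classical
  have hn0 : (0 : ℝ) < n := by exact_mod_cast hn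
  let S : Finset ℕ := (Finset.Icc 1 n).filter fun s => ⌊(n : ℝ) ^ α⌋₊ < s ∧
    (s : ℝ) ≤ (n : ℝ) ^ α'
  have h1 : Nat.card {y : Alt n // Bad z α α' a y} ≤
      ∑ s ∈ S, Nat.card {y : Alt n // BadLev (Fin.snoc (α := fun _ => Alt n) z y) s a} := by
    have h2 : Nat.card {y : Alt n // Bad z α α' a y} =
        (Finset.univ.filter fun y : Alt n => Bad z α α' a y).card := by
      rw [Nat.card_eq_fintype_card, Fintype.card_subtype]
    have h3 : (Finset.univ.filter fun y : Alt n => Bad z α α' a y) ⊆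
        S.biUnion fun s => Finset.univ.filter fun y : Alt n =>
          BadLev (Fin.snoc (α := fun _ => Alt n) z y) s a := by
      intro y hy
      obtain ⟨s, hs1, hs2, hs3⟩ := (Finset.mem_filter.1 hy).2
      refine Finset.mem_biUnion.2 ⟨s, ?_, Finset.mem_filter.2 ⟨Finset.mem_univ _, hs3⟩⟩
      exact Finset.mem_filter.2 ⟨Finset.mem_Icc.2 ⟨by omega, h5 s hs1 hs2⟩, hs1, hs2⟩
    rw [h2]
    refine (Finset.card_le_card h3).trans (Finset.card_biUnion_le.trans_eq ?_)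
    refine Finset.sum_congr rfl fun s _ => ?_
    rw [Nat.card_eq_fintype_card, Fintype.card_subtype]
  have h2 : (Nat.card {y : Alt n // Bad z α α' a y} : ℝ) ≤
      ∑ s ∈ S, (Nat.card {y : Alt n // BadLev (Fin.snoc (α := fun _ => Alt n) z y) s a} : ℝ) := by
    exact_mod_cast h1
  have h3 : ∑ s ∈ S, (Nat.card {y : Alt n // BadLev (Fin.snoc (α := fun _ => Alt n) z y) s a} : ℝ)
      ≤ S.card • (Nat.card (Alt n) * ((n : ℝ) ^ 2)⁻¹) :=
    Finset.sum_le_card_nsmul _ _ _ fun s hs => hb s (Finset.mem_filter.1 hs).2.1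
      (Finset.mem_filter.1 hs).2.2
  have h4 : (S.card : ℝ) ≤ n := by
    have : S.card ≤ n := (Finset.card_filter_le _ _).trans (by rw [Nat.card_Icc]; omega)
    exact_mod_cast this
  refine h2.trans (h3.trans ?_)
  rw [nsmul_eq_mul]
  refine (mul_le_mul_of_nonneg_right h4 (by positivity)).trans (le_of_eq ?_)
  field_simp

theorem good_snoc (h1 : S_RED) (hk : 1 ≤ k) {z : Fin k → Alt n} {α α' ε a : ℝ} (ha : 0 < a)
    (hε : 0 < ε) (hz : ∀ r : ℕ, (r : ℝ) ≤ (n : ℝ) ^ α → TupleGap z r ε) {y : Alt n}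
    (hy : ¬ Bad z α α' a y) (r : ℕ) (hr : (r : ℝ) ≤ (n : ℝ) ^ α') :
    TupleGap (Fin.snoc (α := fun _ => Alt n) z y : Fin (k + 1) → Alt n) r
      (min a (ε * k / (k + 1))) := by
  refine h1 n (k + 1) r _ _ fun s hs1 hsr f μ hf hZ hW => ?_
  by_cases hs : ⌊(n : ℝ) ^ α⌋₊ < s
  · have h2 : ¬ (1 - a < μ) := fun h => hy ⟨s, hs, le_trans (by exact_mod_cast hsr) hr,
      f, μ, hf, hZ, hW, h⟩
    have h3 := min_le_left a (ε * k / (k + 1))
    linarith
  · have h2 : (s : ℝ) ≤ (n : ℝ) ^ α :=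
      (Nat.le_floor_iff (Real.rpow_nonneg (Nat.cast_nonneg n) α)).1 (not_lt.1 hs)
    have h3 := low_level hk hs1 (hz s h2) y hf hZ hW
    have h4 := min_le_right a (ε * k / (k + 1))
    linarith

theorem level (h2 : S_UR) (h3 : S_FL) (hk : 1 ≤ k) {α ε ε₁ a : ℝ} (hε0 : 0 < ε) (hε1 : ε ≤ 1)
    (hε₁ : 0 < ε₁) (hε₁' : ε₁ < 1) (ha : 0 < a)
    (hsq : √(2 * (k + 1) * a) + 2 * √(a / ε₁) ≤ 1 / 4)
    {z : Fin k → Alt n} (hz : ∀ r : ℕ, (r : ℝ) ≤ (n : ℝ) ^ α → TupleGap z r ε)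
    {r : ℕ} (hr : ⌊(n : ℝ) ^ α⌋₊ < r) {m T' : ℕ} (n1 : 16 ≤ ⌊(n : ℝ) ^ α⌋₊) (n2 : 1 ≤ T')
    (n3 : 5 * r ≤ n) (n4 : 2 * r * (8 * T') + 2 ≤ n)
    (n5 : (1 - ε / 2) ^ m ≤ 1 / (n.descFactorial ⌊(n : ℝ) ^ α⌋₊ : ℝ))
    (n6 : (9 / 4) * (n : ℝ) ^ r * 2 ^ r * (2 ^ (8 * T') *
        (2 * (64 * r * (8 * T') / n : ℝ) ^ (⌊(n : ℝ) ^ α⌋₊ / 16)) ^ T') ≤
      ((n : ℝ) ^ 2)⁻¹ * ((1 - ε₁) ^ (4 * m) / 4) ^ (4 * T')) :
    (Nat.card {y : Alt n // BadLev (Fin.snoc (α := fun _ => Alt n) z y) r a} : ℝ) ≤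
        Nat.card (Alt n) * ((n : ℝ) ^ 2)⁻¹ := by
  have hgap : ∀ h ≤ ⌊(n : ℝ) ^ α⌋₊, TupleGap z h ε := fun h hh =>
    hz h ((Nat.le_floor_iff (Real.rpow_nonneg (Nat.cast_nonneg n) α)).1 hh)
  have hRn : ⌊(n : ℝ) ^ α⌋₊ ≤ n := by omega
  have w1 : Wise (lazyLaw z m) ⌊(n : ℝ) ^ α⌋₊ :=
    h2 n k _ m z ε hk hRn hε0 hε1 hgap n5
  have w2 : Wise (lazyLaw z (2 * m)) ⌊(n : ℝ) ^ α⌋₊ := by
    refine h2 n k _ (2 * m) z ε hk hRn hε0 hε1 hgap (le_trans ?_ n5)
    exact pow_le_pow_of_le_one (by linarith) (by linarith) (by omega)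
  have h := h3 n k r ⌊(n : ℝ) ^ α⌋₊ m T' z ε₁ a hk n1 hr.le n2 n3 n4 w1 w2 hε₁ hε₁' ha.le hsq
  have hpos : 0 < ((1 - ε₁) ^ (4 * m) / 4) ^ (4 * T') :=
    pow_pos (div_pos (pow_pos (by linarith) _) (by norm_num)) _
  have hN : (0 : ℝ) ≤ Nat.card (Alt n) := Nat.cast_nonneg _
  have h' := h.trans (mul_le_mul_of_nonneg_left n6 hN)
  rw [← mul_assoc] at h'
  exact le_of_mul_le_mul_right h' hpos

theorem count (hn : 1 ≤ n) {α α' ε ε' a : ℝ}
    (hbad : ∀ z : good k n α ε, (Nat.card {y : Alt n // Bad z.1 α α' a y} : ℝ) ≤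
      Nat.card (Alt n) / n)
    (hgood : ∀ (z : good k n α ε) (y : Alt n), ¬ Bad z.1 α α' a y → ∀ r : ℕ,
      (r : ℝ) ≤ (n : ℝ) ^ α' →
      TupleGap (Fin.snoc (α := fun _ => Alt n) z.1 y : Fin (k + 1) → Alt n) r ε') :
    (Nat.card (good k n α ε) : ℝ) / Nat.card (Fin k → Alt n) * (1 - 1 / n) ≤
      (Nat.card (good (k + 1) n α' ε') : ℝ) / Nat.card (Fin (k + 1) → Alt n) := by
  classical
  have hn0 : (0 : ℝ) < n := by exact_mod_cast hn
  have hA : 0 < Nat.card (Alt n) := Nat.card_pos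
  have hA' : (0 : ℝ) < Nat.card (Alt n) := by exact_mod_cast hA
  have hK : (0 : ℝ) < Nat.card (Fin k → Alt n) := by exact_mod_cast Nat.card_pos
  -- cardinality of the families of length `k + 1`
  have hc : Nat.card (Fin (k + 1) → Alt n) = Nat.card (Fin k → Alt n) * Nat.card (Alt n) := by
    rw [Nat.card_congr (Fin.snocEquiv (fun _ : Fin (k + 1) => Alt n)).symm, Nat.card_prod, mul_comm]
  -- the complement of the bad elements
  have hcompl : ∀ z : good k n α ε, (Nat.card (Alt n) : ℝ) * (1 - 1 / n) ≤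
      Nat.card {y : Alt n // ¬ Bad z.1 α α' a y} := by
    intro z
    have h1 := Nat.card_congr (Equiv.sumCompl fun y : Alt n => Bad z.1 α α' a y)
    rw [Nat.card_sum] at h1
    have h2 : (Nat.card {y : Alt n // Bad z.1 α α' a y} : ℝ) +
        Nat.card {y : Alt n // ¬ Bad z.1 α α' a y} = Nat.card (Alt n) := by exact_mod_cast h1
    have h3 := hbad z
    have h4 : (Nat.card (Alt n) : ℝ) * (1 - 1 / n) = Nat.card (Alt n) - Nat.card (Alt n) / n := by
      ring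
    linarith
  -- the injection
  let F : (Σ z : good k n α ε, {y : Alt n // ¬ Bad z.1 α α' a y}) → good (k + 1) n α' ε' :=
    fun w => ⟨Fin.snoc (α := fun _ => Alt n) w.1.1 w.2.1, hgood w.1 w.2.1 w.2.2⟩
  have hF : Function.Injective F := by
    rintro ⟨z, y⟩ ⟨z', y'⟩ h
    have h1 : (Fin.snoc (α := fun _ => Alt n) z.1 y.1 : Fin (k + 1) → Alt n) =
        Fin.snoc (α := fun _ => Alt n) z'.1 y'.1 := congrArg Subtype.val h
    have h2 : z = z' := by
      refine Subtype.ext (funext fun i => ?_)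
      have := congrFun h1 i.castSucc
      rwa [Fin.snoc_castSucc, Fin.snoc_castSucc] at this
    subst h2
    have h3 : y = y' := by
      refine Subtype.ext ?_
      have := congrFun h1 (Fin.last k)
      rwa [Fin.snoc_last, Fin.snoc_last] at this
    rw [h3]
  have h1 := Nat.card_le_card_of_injective F hF
  rw [Nat.card_sigma] at h1
  have h2 : ∑ z : good k n α ε, (Nat.card {y : Alt n // ¬ Bad z.1 α α' a y} : ℝ) ≤
      Nat.card (good (k + 1) n α' ε') := by exact_mod_cast h1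
  have h3 : (Nat.card (good k n α ε) : ℝ) * (Nat.card (Alt n) * (1 - 1 / n)) ≤
      ∑ z : good k n α ε, (Nat.card {y : Alt n // ¬ Bad z.1 α α' a y} : ℝ) := by
    have h4 := Finset.card_nsmul_le_sum (Finset.univ : Finset (good k n α ε))
      (fun z => (Nat.card {y : Alt n // ¬ Bad z.1 α α' a y} : ℝ)) _ fun z _ => hcompl z
    rwa [nsmul_eq_mul, Finset.card_univ, ← Nat.card_eq_fintype_card] at h4
  rw [hc, Nat.cast_mul, le_div_iff₀ (mul_pos hK hA')]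
  have h5 : (Nat.card (good k n α ε) : ℝ) / Nat.card (Fin k → Alt n) * (1 - 1 / n) *
      (Nat.card (Fin k → Alt n) * Nat.card (Alt n)) =
      (Nat.card (good k n α ε) : ℝ) * (Nat.card (Alt n) * (1 - 1 / n)) := by
    field_simp
  rw [h5]
  exact h3.trans h2

end Step33

open Step33 in
/-- the step with a fresh generator -/
theorem step (h1 : S_RED) (h2 : S_UR) (h3 : S_FL) (h4 : S_NUMF) : S_STEP := by
  intro k α ε hk hα hα1 hε hW α' hα'
  -- reduction to `ε ≤ 1`, `α < α'`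
  have hW1 : Whp k α (min ε 1) := whp_mono le_rfl (min_le_left _ _) hW
  have hε0 : 0 < min ε 1 := lt_min hε one_pos
  have hε1 : min ε 1 ≤ 1 := min_le_right _ _
  set ε₀ := min ε 1 with hε₀
  obtain ⟨β, hβ1, hβ2, hβ3⟩ : ∃ β : ℝ, α < β ∧ β < (1 + α) / 2 ∧ α' ≤ β := by
    refine ⟨max α' ((α + (1 + α) / 2) / 2), ?_, ?_, le_max_left _ _⟩
    · exact lt_of_lt_of_le (by linarith) (le_max_right _ _)
    · exact max_lt hα' (by linarith)
  obtain ⟨ε₁, a, e1, e2, e3, e4, hev⟩ := h4 k α β ε₀ hα hβ1 hβ2 hα1 hε0 hε1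
  have hk0 : (0 : ℝ) < k := by exact_mod_cast hk
  refine ⟨min a (ε₀ * k / (k + 1)), lt_min e3 (by positivity), ?_⟩
  refine whp_mono hβ3 le_rfl ?_
  have hlim : Filter.Tendsto (fun n : ℕ => (Nat.card (good k n α ε₀) : ℝ) /
      Nat.card (Fin k → Alt n) * (1 - 1 / n)) Filter.atTop (nhds 1) := by
    have h5 : Filter.Tendsto (fun n : ℕ => (1 : ℝ) - 1 / n) Filter.atTop (nhds (1 - 0)) :=
      tendsto_const_nhds.sub tendsto_one_div_atTop_nhds_zero_nat
    have h6 := Filter.Tendsto.mul hW1 h5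
    rwa [sub_zero, mul_one] at h6
  refine tendsto_of_tendsto_of_tendsto_of_le_of_le' hlim tendsto_const_nhds ?_ ?_
  · filter_upwards [hev, Filter.eventually_ge_atTop 1] with n hn hn1
    refine count hn1 (a := a) (fun z => ?_) fun z y hy r hr => ?_
    · refine card_bad z.1 α β a hn1 (fun s hs1 hs2 => ?_) fun s hs1 hs2 => ?_
      · obtain ⟨m, T', -, -, h5, -⟩ := hn s hs1 hs2
        omega
      · obtain ⟨m, T', n1, n2, n3, n4, n5, n6⟩ := hn s hs1 hs2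
        exact level h2 h3 hk hε0 hε1 e1 e2 e3 e4 z.2 hs1 n1 n2 n3 n4 n5 n6
    · exact good_snoc h1 hk e3 hε0 z.2 hy r hr
  · exact Filter.Eventually.of_forall fun n => ratio_le_one (k + 1) n β _

end Pool.Agent.Helper3.AK
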